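import Pool.Agent.N229.SC.Stm

/-!
Project SC, problem MP_83fd13_an, part FN5 (helper989): the boundary value is not zero.
-/

set_option autoImplicit false

open Set Filter Topology

namespace Run7.h989.SC

open Pool.Agent.N229.SC

private theorem fac_aux (i : ℕ) (c : ℝ) (hc0 : 0 ≤ c) (q : ℂ)
    (hq : ‖q‖ ≤ 3 / 5 * (3 ^ i * (i.factorial : ℝ))) (e : ℂ) (he : ‖e‖ = c) :
    ‖(e ^ (i + 1) / ((i + 1).factorial : ℂ)) * q‖ ≤ 3 / 5 * c * (3 * c) ^ i := by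
  have h1 : (0 : ℝ) < (i.factorial : ℝ) := by exact_mod_cast i.factorial_pos
  have h2 : (i.factorial : ℝ) ≤ ((i + 1).factorial : ℝ) := by
    exact_mod_cast Nat.factorial_le (Nat.le_succ i)
  have h3 : (0 : ℝ) < ((i + 1).factorial : ℝ) := by exact_mod_cast (i + 1).factorial_pos
  rw [norm_mul, norm_div, norm_pow, he, Complex.norm_natCast]
  have h4 : c ^ (i + 1) / ((i + 1).factorial : ℝ) * ‖q‖ ≤
      c ^ (i + 1) / ((i + 1).factorial : ℝ) * (3 / 5 * (3 ^ i * (i.factorial : ℝ))) := by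
    gcongr
  refine h4.trans ?_
  have h5 : c ^ (i + 1) / ((i + 1).factorial : ℝ) * (3 / 5 * (3 ^ i * (i.factorial : ℝ))) =
      (3 / 5 * c * (3 * c) ^ i) * ((i.factorial : ℝ) / ((i + 1).factorial : ℝ)) := by
    rw [mul_pow, pow_succ]
    ring
  rw [h5]
  have h6 : (i.factorial : ℝ) / ((i + 1).factorial : ℝ) ≤ 1 := by
    rw [div_le_one h3]; exact h2
  have h7 : 0 ≤ 3 / 5 * c * (3 * c) ^ i := by positivity
  exact mul_le_of_le_one_right h7 h6

theorem t_FN5 (hA2 : S_A2) (hAB : S_AB) (hB1 : S_B1) (hB2 : S_B2) (hEV : S_EV) : S_FN5 := by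
  intro P X h v y hF
  refine ⟨1, norm_one, ?_⟩
  have hG := hF.good
  have hρ : 0 < P.ρ := by linarith [hG.rho]
  obtain ⟨-, -, -, -, -, -, hn8⟩ := hAB P hG
  have hn : (0 : ℝ) < P.n := by linarith
  have hn0 : P.n ≠ 0 := by
    intro h0
    rw [h0] at hn
    simp at hn
  have hsol := hF.sol
  have hX := hF.X_pos
  have hX2 := hF.X_le
  have hh : ‖h‖ ≤ 1 / 1000 := by
    have := hsol.nh
    norm_num at hX2 ⊢
    linarith
  have hDom : Dom X h v y := ⟨hsol.hc, hsol.hv, hsol.hy, hsol.nh, hsol.nv, hsol.ny⟩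
  obtain ⟨⟨-, -, -, htaun, -, hxi⟩, hcj, ⟨hPhi, -, hbeta, htau, -⟩, -⟩ := hB1 P hG h hh
  obtain ⟨hqq, hvv, hVh, hQh, hbig⟩ := hB2 P hG X h v y hX hX2 hDom
  have hq0 := (hbig 5 5 (by norm_num) le_rfl (by norm_num) le_rfl hsol.nv hsol.ny).1
  have ht1 : ‖(1 : ℂ)‖ = 1 := norm_one
  obtain ⟨evle, evadd, evsmul, evmul, evmon, evevh, ⟨L, hL⟩, evconj, evinc, evex, evreal⟩ :=
    hEV wW 1 ht1
  have ev1 : ev (1 : W) 1 = 1 := by rw [one_def, evmon, zpow_zero]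
  have evsub : ∀ a b : W, ev (a - b) 1 = ev a 1 - ev b 1 := by
    intro a b
    rw [← hL, ← hL, ← hL, map_sub]
  have hxib : ‖xi P h‖ ≤ 1 / 900 := by
    have h1 : ‖xi P h‖ ≤ ‖xi P h - h‖ + ‖h‖ := by
      have := norm_add_le (xi P h - h) h
      rwa [sub_add_cancel] at this
    nlinarith [norm_nonneg h]
  -- the boundary value of `f`
  set f := fF P h with hf
  have hfz : f 1 = P.ρ * 1 * Complex.exp (evh (Phi P h) 1 / P.n) := by rw [hf, fF, one_pow]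
  have hνn : P.nu / P.n = 1 / P.ρ := by
    unfold Par.nu
    field_simp
  obtain ⟨hre, him⟩ := evreal h hsol.hc
  have hPhit : evh (Phi P h) 1 = ev (Phi P h) 1 := (evevh (Phi P h) hPhi).symm
  have hfn : (f 1 / P.ρ) ^ P.n = ev (tau P h) 1 := by
    unfold tau
    rw [evmul, evmon, evex, zpow_one, evevh (Phi P h) hPhi, hfz]
    have hρC : (P.ρ : ℂ) ≠ 0 := by exact_mod_cast hρ.ne'
    have hnC : (P.n : ℂ) ≠ 0 := by exact_mod_cast hn0
    have e1 : (P.ρ : ℂ) * 1 * Complex.exp (evh (Phi P h) 1 / P.n) / P.ρ =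
        1 * Complex.exp (evh (Phi P h) 1 / P.n) := by
      field_simp
    rw [e1, mul_pow, ← Complex.exp_nat_mul, one_pow]
    congr 2
    field_simp
  -- the number `e`
  have hY : ev (YY P h) 1 = ((‖f 1‖ ^ 2 / P.ρ ^ 2 : ℝ) : ℂ) := by
    have hPhiv : evh (Phi P h) 1 = P.nu * evh (hol h) 1 := by
      have h1 : ev (Phi P h) 1 = P.nu * ev (hol h) 1 := by
        unfold Phi
        exact evsmul _ _
      have h2 : ev (hol h) 1 = evh (hol h) 1 := by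
        refine evevh _ fun j hj => ?_
        obtain ⟨-, -, ⟨hhol, -⟩, -⟩ := hA2
        rw [hhol, if_neg (by omega), if_neg (by omega)]
      rw [hPhit, h1, h2]
    have e1 : ev (YY P h) 1 = Complex.exp ((((2 / P.ρ) * (ev h 1).re : ℝ)) : ℂ) := by
      unfold YY
      rw [evex, evsmul]
      congr 1
      rw [Complex.ofReal_mul]
      congr 1
      exact Complex.ext rfl (by rw [him]; simp)
    rw [e1, hfz, norm_mul, norm_mul, norm_one, mul_one, Complex.norm_exp, Complex.norm_real,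
      Real.norm_of_nonneg hρ.le, ← Complex.ofReal_exp]
    congr 1
    have e2 : (evh (Phi P h) 1 / P.n).re = (1 / P.ρ) * (ev h 1).re := by
      rw [hPhiv, ← hre, Complex.div_natCast_re, Complex.re_ofReal_mul, ← hνn]
      ring
    rw [e2, mul_pow, ← Real.exp_nat_mul]
    field_simp
    congr 1
    push_cast
    ring
  have heF : ((eF P.ρ f 1 : ℝ) : ℂ) = -ev (xi P h) 1 := by
    unfold xi
    rw [evsmul, evsub, ev1, hY]
    unfold eF
    push_cast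
    have : (P.ρ : ℂ) ≠ 0 := by exact_mod_cast hρ.ne'
    field_simp
    ring
  have hen : ‖((eF P.ρ f 1 : ℝ) : ℂ)‖ ≤ 1 / 900 := by
    rw [heF, norm_neg]
    exact (evle _).trans hxib
  have hQ' : ∀ i : ℕ, QF P X h v y (i + 1) 1 = ev (Qh P X h v y i) 1 := by
    intro i
    unfold Qh
    rw [evadd, evadd, evsmul, evsmul, ev1, mul_one, ← hfn,
      evevh (qq P h v y (i + 1)) fun j hj => hqq (i + 1) j (by omega)]
    show (P.b i : ℂ) + ((X * P.a (i + 1) : ℝ) : ℂ) * (fF P h 1 / P.ρ) ^ P.n +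
      evh (qq P h v y (i + 1)) (1 ^ P.n) = _
    rw [one_pow]
  have hQ0 : QF P X h v y 0 1 = 1 + (((2 / P.ρ * P.b 0 : ℝ) : ℂ) +
      ((X * P.a 0 : ℝ) : ℂ) * ev (tau P h) 1 + ev (qq P h v y 0) 1) := by
    show ((2 / P.ρ * P.b 0 - P.b 1 : ℝ) : ℂ) + ((X * P.a 0 : ℝ) : ℂ) * (fF P h 1 / P.ρ) ^ P.n +
      evh (qq P h v y 0) (1 ^ P.n) = _
    rw [one_pow, hG.b1, evevh (qq P h v y 0) fun j hj => hqq 0 j (by omega), ← hfn]
    push_cast
    ring
  obtain ⟨e, he⟩ : ∃ e : ℂ, e = ((eF P.ρ f 1 : ℝ) : ℂ) := ⟨_, rfl⟩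
  obtain ⟨c, hc⟩ : ∃ c : ℝ, c = ‖e‖ := ⟨_, rfl⟩
  have hc0 : 0 ≤ c := by rw [hc]; exact norm_nonneg _
  have hc1 : c ≤ 1 / 900 := by rw [hc, he]; exact hen
  have hterm : ∀ i : ℕ, ‖(e ^ (i + 1) / ((i + 1).factorial : ℂ)) * QF P X h v y (i + 1) 1‖ ≤
      3 / 5 * c * (3 * c) ^ i := by
    intro i
    refine fac_aux i c hc0 _ ?_ e hc.symm
    rw [hQ']
    exact (evle _).trans (hQh i)
  have hgeo : HasSum (fun i : ℕ => 3 / 5 * c * (3 * c) ^ i) (3 / 5 * c * (1 - 3 * c)⁻¹) :=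
    (hasSum_geometric_of_lt_one (by positivity) (by linarith)).mul_left _
  have hs1 : Summable (fun i : ℕ => (e ^ (i + 1) / ((i + 1).factorial : ℂ)) *
      QF P X h v y (i + 1) 1) := Summable.of_norm_bounded hgeo.summable hterm
  have hs : Summable (fun i : ℕ => (e ^ i / (i.factorial : ℂ)) * QF P X h v y i 1) :=
    (summable_nat_add_iff 1).1 hs1
  have hsum : PP (QF P X h v y) (eF P.ρ f 1) 1 = QF P X h v y 0 1 +
      ∑' i : ℕ, (e ^ (i + 1) / ((i + 1).factorial : ℂ)) * QF P X h v y (i + 1) 1 := by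
    have h1 := hs.tsum_eq_zero_add
    simp only [pow_zero, Nat.factorial_zero, Nat.cast_one, div_one, one_mul] at h1
    rw [← h1, he]
    rfl
  have hrest : ‖∑' i : ℕ, (e ^ (i + 1) / ((i + 1).factorial : ℂ)) * QF P X h v y (i + 1) 1‖ ≤
      1 / 100 := by
    refine (tsum_of_norm_bounded hgeo hterm).trans ?_
    have h1 : (1 - 3 * c)⁻¹ ≤ 2 := by
      rw [inv_le_comm₀ (by linarith) (by norm_num)]
      linarith
    have h2 : 0 ≤ (1 - 3 * c)⁻¹ := inv_nonneg.2 (by linarith)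
    nlinarith
  have hsmall : ‖((2 / P.ρ * P.b 0 : ℝ) : ℂ) + ((X * P.a 0 : ℝ) : ℂ) * ev (tau P h) 1 +
      ev (qq P h v y 0) 1‖ ≤ 1 / 100 := by
    have h1 : ‖((2 / P.ρ * P.b 0 : ℝ) : ℂ)‖ ≤ 1 / 1000 := by
      rw [Complex.norm_real, Real.norm_eq_abs, abs_mul, abs_of_pos (div_pos two_pos hρ)]
      have h2 : 2 / P.ρ ≤ 1 := by
        rw [div_le_one hρ]
        linarith [hG.rho]
      have h3 := hG.b0
      have h4 : 2 / P.ρ * |P.b 0| ≤ 1 * |P.b 0| :=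
        mul_le_mul_of_nonneg_right h2 (abs_nonneg _)
      norm_num at h3
      linarith
    have h2 : ‖((X * P.a 0 : ℝ) : ℂ) * ev (tau P h) 1‖ ≤ 1 / 1000 := by
      have ha0 := hG.a0
      have ha0' := hG.a0'
      norm_num at ha0 ha0' hX2
      have h3 : 0 ≤ P.a 0 := by linarith
      rw [norm_mul, Complex.norm_real, Real.norm_eq_abs, abs_of_nonneg (mul_nonneg hX.le h3)]
      have h5 : ‖ev (tau P h) 1‖ ≤ 2 := (evle _).trans (htaun.trans (by norm_num))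
      have h6 : X * P.a 0 ≤ 1 / 2000 := by nlinarith
      have h7 : 0 ≤ X * P.a 0 := mul_nonneg hX.le h3
      nlinarith [norm_nonneg (ev (tau P h) 1)]
    have h3 : ‖ev (qq P h v y 0) 1‖ ≤ 1 / 1000 := by
      refine (evle _).trans (hq0.trans ?_)
      norm_num at hX2
      nlinarith
    have h4 := norm_add_le (((2 / P.ρ * P.b 0 : ℝ) : ℂ) + ((X * P.a 0 : ℝ) : ℂ) * ev (tau P h) 1)
      (ev (qq P h v y 0) 1)
    have h5 := norm_add_le ((2 / P.ρ * P.b 0 : ℝ) : ℂ) (((X * P.a 0 : ℝ) : ℂ) * ev (tau P h) 1)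
    linarith
  obtain ⟨r1, hr1⟩ : ∃ r1 : ℂ, r1 = ((2 / P.ρ * P.b 0 : ℝ) : ℂ) +
    ((X * P.a 0 : ℝ) : ℂ) * ev (tau P h) 1 + ev (qq P h v y 0) 1 := ⟨_, rfl⟩
  obtain ⟨r2, hr2⟩ : ∃ r2 : ℂ, r2 = ∑' i : ℕ, (e ^ (i + 1) / ((i + 1).factorial : ℂ)) *
    QF P X h v y (i + 1) 1 := ⟨_, rfl⟩
  rw [← hr1] at hsmall hQ0
  rw [← hr2] at hrest hsum
  have hU : UU P.ρ (fF P h) (QF P X h v y) 1 = 1 + r1.re + r2.re := by
    unfold UU
    rw [← hf, hsum, hQ0]
    simp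
  rw [hU]
  have h1 := (abs_le.1 ((Complex.abs_re_le_norm r1).trans hsmall)).1
  have h2 := (abs_le.1 ((Complex.abs_re_le_norm r2).trans hrest)).1
  intro h3
  linarith

end Run7.h989.SC
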